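import Mathlib
import Pool.Agent.H15.CIDefs
import Pool.Agent.H15.CIGlue

set_option autoImplicit false

namespace Pool.Agent.Results.MP_325c15_al.AllQuotients

open Pool.Agent.H15.CI

/-- Every numerical semigroup is a quotient `S / d` of a complete intersection numerical
semigroup `S`. -/
theorem result (T : AddSubmonoid ℕ) (hT : IsNumerical T) :
    ∃ (S : AddSubmonoid ℕ) (d : ℕ), IsNumerical S ∧ IsCompleteIntersection S ∧ 1 ≤ d ∧
      (T : Set ℕ) = {x | d * x ∈ S} := by
  obtain ⟨S, d, h1, h2, h3, h4⟩ := main T hT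
  exact ⟨S, d, h1, h2, h3, Set.ext h4⟩

end Pool.Agent.Results.MP_325c15_al.AllQuotients
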